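import Mathlib
import Pool.Agent.H26.Bern

/-! A subgroup of the circle that is not `I⋆`-characterized for any ideal `I`. -/

namespace Pool.Agent.Results.MP_8013b9_lc.NotStarCharacterized

open Set Filter Topology Cardinal Pool.Agent.H26.Bern

/-- A proper ideal on `ℕ` containing all finite sets. -/
def IsIdeal (I : Set (Set ℕ)) : Prop :=
  (∀ A ∈ I, ∀ B ⊆ A, B ∈ I) ∧ (∀ A ∈ I, ∀ B ∈ I, A ∪ B ∈ I) ∧
    (∀ A : Set ℕ, A.Finite → A ∈ I) ∧ (Set.univ : Set ℕ) ∉ I

/-- `H⋆_a(I)`: the points `x` of `𝕋 = ℝ/ℤ` such that for some `S ∈ I` the sequence `aₙ x`,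
`n ∉ S`, converges to `0` in the usual sense. -/
def HStar (a : ℕ → ℤ) (I : Set (Set ℕ)) : Set UnitAddCircle :=
  {x | ∃ S ∈ I, Tendsto (fun n => a n • x) (atTop ⊓ 𝓟 Sᶜ) (𝓝 0)}

lemma geo {w : ℕ → ℝ} (h : ∀ l, |w (l + 1)| ≤ |w l| / 3) (l i : ℕ) :
    |w (i + l)| ≤ |w l| * (1 / 3) ^ i := by
  induction i with
  | zero => simp
  | succ i ih =>
    have := h (i + l)
    rw [show i + 1 + l = i + l + 1 by ring, pow_succ]
    linarith

lemma summ {w : ℕ → ℝ} (h : ∀ l, |w (l + 1)| ≤ |w l| / 3) {v : ℕ → ℝ} (hv : ∀ l, |v l| ≤ |w l|) :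
    Summable v := by
  refine Summable.of_norm_bounded
    ((summable_geometric_of_lt_one (r := 1 / 3) (by norm_num) (by norm_num)).mul_left |w 0|) ?_
  intro i
  exact (hv i).trans (by simpa using geo h 0 i)

lemma inj {w : ℕ → ℝ} (h : ∀ l, |w (l + 1)| ≤ |w l| / 3) (h0 : ∀ l, w l ≠ 0) :
    Function.Injective (fun ε : ℕ → Bool => ∑' l, if ε l then w l else 0) := by
  classical
  intro ε ε' he
  by_contra hne
  have hex : ∃ l, ε l ≠ ε' l := by
    by_contra hc
    simp only [not_exists, not_not] at hc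
    exact hne (funext hc)
  set l := Nat.find hex
  let d : ℕ → ℝ := fun j => (if ε j then w j else 0) - (if ε' j then w j else 0)
  have hd : ∀ j, |d j| ≤ |w j| := by
    intro j
    simp only [d]
    cases ε j <;> cases ε' j <;> simp
  have hb : ∀ e : ℕ → Bool, ∀ j, |(if e j then w j else 0)| ≤ |w j| := by
    intro e j
    cases e j <;> simp
  have h1 : ∑' j, d j = 0 := by
    simp only [d]
    rw [(summ h (hb ε)).tsum_sub (summ h (hb ε'))]
    exact sub_eq_zero.2 he
  rw [← (summ h hd).sum_add_tsum_nat_add (l + 1), Finset.sum_range_succ,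
    Finset.sum_eq_zero, zero_add] at h1
  · have h2 : |d l| = |w l| := by
      have := Nat.find_spec hex
      simp only [d]
      revert this
      change ε l ≠ ε' l → _
      cases ε l <;> cases ε' l <;> simp
    have h3 : ‖∑' i, d (i + (l + 1))‖ ≤ |w l| / 3 * (1 - 1 / 3)⁻¹ := by
      refine tsum_of_norm_bounded
        ((hasSum_geometric_of_lt_one (r := 1 / 3) (by norm_num) (by norm_num)).mul_left _) ?_
      intro i
      refine (hd _).trans ((geo h (l + 1) i).trans ?_)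
      have := h l
      gcongr
    have h4 : d l = -∑' i, d (i + (l + 1)) := by linarith
    rw [h4, abs_neg] at h2
    rw [Real.norm_eq_abs, h2] at h3
    have := abs_pos.2 (h0 l)
    linarith
  · intro j hj
    have := Nat.find_min hex (Finset.mem_range.1 hj)
    simp only [ne_eq, not_not] at this
    simp [d, this]

lemma ev_iff {T : Set ℕ} {f : ℕ → UnitAddCircle} (h : Tendsto f (atTop ⊓ 𝓟 T) (𝓝 0)) {δ : ℝ}
    (hδ : 0 < δ) : ∃ N, ∀ n ≥ N, n ∈ T → ‖f n‖ ≤ δ := by
  have := (tendsto_zero_iff_norm_tendsto_zero.1 h).eventually (ge_mem_nhds hδ)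
  rwa [eventually_inf_principal, eventually_atTop] at this

lemma norm_le (c : ℤ) (u : ℝ) : ‖c • (u : UnitAddCircle)‖ ≤ |(c : ℝ)| * |u| := by
  rw [← AddCircle.coe_zsmul]
  refine QuotientAddGroup.norm_mk_le_norm.trans ?_
  simp

theorem result : ∃ H : AddSubgroup UnitAddCircle, ∀ I : Set (Set ℕ), IsIdeal I →
    ∀ a : ℕ → ℤ, (H : Set UnitAddCircle) ≠ HStar a I := by
  classical
  let Y : (ℕ → ℝ) → (ℕ → Bool) → ℝ := fun w ε => ∑' l, if ε l then w l else 0
  obtain ⟨φ, hφ1, hφ⟩ := exists_phi (κ := {w : ℕ → ℝ // Function.Injective (Y w)})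
    ((mk_subtype_le _).trans (by simp [mk_real])) (fun w => range (Y w.1))
    (fun w => by rw [mk_range_eq _ w.2]; simp)
  let H : AddSubgroup UnitAddCircle :=
    (LinearMap.ker φ).toAddSubgroup.map (QuotientAddGroup.mk' (AddSubgroup.zmultiples (1 : ℝ)))
  have hH : ∀ r : ℝ, (r : UnitAddCircle) ∈ H ↔ φ r = 0 := by
    intro r
    constructor
    · rintro ⟨s, hs, he⟩
      have he' : (s : UnitAddCircle) = r := he
      obtain ⟨m, hm⟩ := QuotientAddGroup.eq.1 he'
      have hs' : φ s = 0 := hs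
      have : r = s + m • (1 : ℝ) := by
        have : m • (1 : ℝ) = -s + r := hm
        rw [this]; ring
      rw [this, map_add, map_zsmul, hs', hφ1]; simp
    · intro h
      exact ⟨r, h, rfl⟩
  refine ⟨H, fun I hI a he => ?_⟩
  have hH' : ∀ r : ℝ, φ r = 0 ↔ (r : UnitAddCircle) ∈ HStar a I := fun r => by
    rw [← hH, ← he]; rfl
  obtain ⟨x, hx0, hxq⟩ := baire φ (fun q : ℚ => {(q : ℝ)}ᶜ) (fun _ => isOpen_compl_singleton)
    (fun _ => dense_compl_singleton _)
  have hirr : Irrational (x / 1) := by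
    rw [div_one]
    rintro ⟨q, hq⟩
    exact hxq q hq.symm
  obtain ⟨S, hS, hx⟩ := (hH' x).1 hx0
  have hN : ∀ (k : ℕ) (c : ℤ), ∃ N, k ≤ N ∧ ∀ n ≥ N, n ∈ Sᶜ →
      ‖c • a n • (x : UnitAddCircle)‖ ≤ (1 / 2) ^ k := by
    intro k c
    obtain ⟨N, hN⟩ := ev_iff (f := fun n => c • a n • (x : UnitAddCircle))
      (by simpa using hx.const_smul c) (show (0 : ℝ) < (1 / 2) ^ k by positivity)
    exact ⟨max k N, le_max_left _ _, fun n hn => hN n (le_of_max_le_right hn)⟩
  choose N hN1 hN2 using hN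
  let ρ : ℕ → ℤ → ℝ := fun k c => (1 / 2) ^ k / (1 + ∑ n ∈ Finset.range (N k c), |(a n : ℝ)|)
  have hρ : ∀ k c, 0 < ρ k c := fun k c => by positivity
  obtain ⟨z, hz0, hz⟩ := baire φ (fun k : ℕ => ⋃ p : ℤ × ℤ,
      Metric.ball (p.1 • x + p.2 • (1 : ℝ)) (ρ k p.1) ∩ {p.1 • x + p.2 • (1 : ℝ)}ᶜ)
    (fun k => isOpen_iUnion (fun p => Metric.isOpen_ball.inter isOpen_compl_singleton)) (by
      intro k
      rw [dense_iff_inter_open]
      intro U hU hne
      obtain ⟨p, hpU, hp⟩ := (dense_addSubgroupClosure_pair_iff.2 hirr).inter_open_nonempty U hU hne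
      obtain ⟨c, m, rfl⟩ := AddSubgroup.mem_closure_pair.1 hp
      obtain ⟨y, hy1, hy2⟩ := (dense_compl_singleton (c • x + m • (1 : ℝ))).inter_open_nonempty
        _ (hU.inter (Metric.isOpen_ball (x := c • x + m • (1 : ℝ)) (ε := ρ k c)))
        ⟨_, hpU, Metric.mem_ball_self (hρ k c)⟩
      exact ⟨y, hy1.1, mem_iUnion.2 ⟨(c, m), hy1.2, hy2⟩⟩)
  obtain ⟨S', hS', hz'⟩ := (hH' z).1 hz0
  simp only [mem_iUnion] at hz
  choose p hp using hz
  let u : ℕ → ℝ := fun k => z - ((p k).1 • x + (p k).2 • (1 : ℝ))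
  have hu0 : ∀ k, u k ≠ 0 := fun k h => (hp k).2 (sub_eq_zero.1 h)
  have hu1 : ∀ k, |u k| * (1 + ∑ n ∈ Finset.range (N k (p k).1), |(a n : ℝ)|) ≤ (1 / 2) ^ k := by
    intro k
    have := (hp k).1
    rw [Metric.mem_ball, Real.dist_eq] at this
    exact ((lt_div_iff₀ (by positivity)).1 this).le
  have hu2 : ∀ k, |u k| ≤ (1 / 2) ^ k := fun k =>
    le_trans (le_mul_of_one_le_right (abs_nonneg _) (le_add_of_nonneg_right (by positivity))) (hu1 k)
  have hu3 : ∀ k n, a n • (u k : UnitAddCircle) =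
      a n • (z : UnitAddCircle) - (p k).1 • a n • (x : UnitAddCircle) := by
    intro k n
    simp only [u, AddCircle.coe_sub, AddCircle.coe_add, AddCircle.coe_zsmul, AddCircle.coe_period,
      smul_zero, add_zero, smul_sub, smul_comm (a n) (p k).1]
  have hk : ∀ (l : ℕ) (r : ℝ), ∃ k, l ≤ k ∧ (r ≠ 0 → (1 / 2 : ℝ) ^ k ≤ |r| / 3) ∧
      ∀ n ≥ k, n ∈ S'ᶜ → ‖a n • (z : UnitAddCircle)‖ ≤ (1 / 2) ^ l := by
    intro l r
    obtain ⟨M, hM⟩ := ev_iff hz' (show (0 : ℝ) < (1 / 2) ^ l by positivity)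
    by_cases hr : r = 0
    · exact ⟨max l M, le_max_left _ _, fun h => absurd hr h,
        fun n hn => hM n (le_of_max_le_right hn)⟩
    obtain ⟨j, hj⟩ := exists_pow_lt_of_lt_one (show 0 < |r| / 3 by positivity)
      (show (1 / 2 : ℝ) < 1 by norm_num)
    refine ⟨l + M + j, by omega, fun _ => le_trans ?_ hj.le, fun n hn => hM n (by omega)⟩
    exact pow_le_pow_of_le_one (by norm_num) (by norm_num) (by omega)
  choose K hK1 hK2 hK3 using hk
  let k : ℕ → ℕ := fun l => Nat.rec (K 0 0) (fun l j => K (l + 1) (u j)) l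
  have hk' : ∀ l, ∃ r, k l = K l r := fun l => by
    cases l with
    | zero => exact ⟨0, rfl⟩
    | succ l => exact ⟨_, rfl⟩
  let w : ℕ → ℝ := fun l => u (k l)
  have hw : ∀ l, |w (l + 1)| ≤ |w l| / 3 := fun l => (hu2 _).trans (hK2 (l + 1) _ (hu0 _))
  obtain ⟨y, ⟨ε, rfl⟩, hy⟩ := hφ ⟨w, inj hw (fun l => hu0 _)⟩
  have : φ (Y w ε) = 0 := by
    rw [hH']
    refine ⟨S ∪ S', hI.2.1 _ hS _ hS', ?_⟩
    have hb : ∀ j, |(if ε j then w j else 0)| ≤ |w j| := by
      intro j
      cases ε j <;> simp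
    have h1 : ∀ n, a n • ((Y w ε : ℝ) : UnitAddCircle) =
        ∑' l, a n • (((if ε l then w l else 0 : ℝ) : ℝ) : UnitAddCircle) := by
      intro n
      have hs := (summ hw hb).hasSum.map
        (QuotientAddGroup.mk' (AddSubgroup.zmultiples (1 : ℝ))) continuous_quotient_mk'
      exact (hs.const_smul (a n)).tsum_eq.symm
    simp only [h1]
    have hle : ∀ T : Set ℕ, T ⊆ S ∪ S' → atTop ⊓ 𝓟 (S ∪ S')ᶜ ≤ atTop ⊓ 𝓟 Tᶜ := fun T hT =>
      inf_le_inf_left _ (principal_mono.2 (compl_subset_compl.2 hT))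
    have := tendsto_tsum_of_dominated_convergence (𝓕 := atTop ⊓ 𝓟 (S ∪ S')ᶜ)
      (f := fun n l => a n • (((if ε l then w l else 0 : ℝ) : ℝ) : UnitAddCircle))
      (g := fun _ => 0) (bound := fun l => 2 * (1 / 2) ^ l)
      (summable_geometric_two.mul_left 2) ?_ ?_
    · simpa using this
    · intro l
      cases ε l
      · simpa using tendsto_const_nhds
      · simp only [if_true, w, hu3]
        simpa using (hz'.mono_left (hle _ subset_union_right)).sub
          ((hx.mono_left (hle _ subset_union_left)).const_smul (p (k l)).1)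
    · rw [eventually_inf_principal]
      refine Eventually.of_forall (fun n hn l => ?_)
      obtain ⟨r, hr⟩ := hk' l
      have hlk : l ≤ k l := hr ▸ hK1 l r
      have hp2 : (1 / 2 : ℝ) ^ k l ≤ (1 / 2) ^ l :=
        pow_le_pow_of_le_one (by norm_num) (by norm_num) hlk
      have hp0 : (0 : ℝ) < (1 / 2) ^ l := by positivity
      cases ε l
      · simp
      simp only [if_true, w]
      by_cases hnN : n < N (k l) (p (k l)).1
      · refine (norm_le _ _).trans ?_
        have h2 := Finset.single_le_sum (f := fun n => |(a n : ℝ)|) (fun _ _ => abs_nonneg _)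
          (Finset.mem_range.2 hnN)
        have h3 := hu1 (k l)
        nlinarith [abs_nonneg (u (k l))]
      · rw [hu3]
        refine (norm_sub_le _ _).trans ?_
        have h2 := hN2 _ _ n (not_lt.1 hnN) (fun h => hn (Or.inl h))
        have h3 := hK3 l r n (by
          have := hN1 (k l) (p (k l)).1
          rw [← hr]; omega) (fun h => hn (Or.inr h))
        linarith
  rw [this] at hy
  exact zero_ne_one hy

end Pool.Agent.Results.MP_8013b9_lc.NotStarCharacterized
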